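import Mathlib

/-!
Monadic transitive-closure logic without parameters on graphs, and 2-connectivity.
-/

set_option autoImplicit false

namespace Pool.Agent.Lib.MP_c527bb_lc

/-- Formulas of `TC^1_0` whose free variables are among `n` variables. The argument of the
transitive-closure operator has exactly the two variables `x, y` available (no parameters). -/
inductive Fml : ℕ → Type
  | adj {n : ℕ} (i j : Fin n) : Fml n
  | eq {n : ℕ} (i j : Fin n) : Fml n
  | neg {n : ℕ} (φ : Fml n) : Fml n
  | conj {n : ℕ} (φ ψ : Fml n) : Fml n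
  | ex {n : ℕ} (φ : Fml (n + 1)) : Fml n
  | tc {n : ℕ} (φ : Fml 2) (s t : Fin n) : Fml n

/-- Satisfaction in a graph under an assignment of the variables. -/
def Sat {V : Type} (G : SimpleGraph V) : {n : ℕ} → Fml n → (Fin n → V) → Prop
  | _, .adj i j, v => G.Adj (v i) (v j)
  | _, .eq i j, v => v i = v j
  | _, .neg φ, v => ¬ Sat G φ v
  | _, .conj φ ψ, v => Sat G φ v ∧ Sat G ψ v
  | _, .ex φ, v => ∃ x : V, Sat G φ (Fin.cons x v)
  | _, .tc φ s t, v => Relation.TransGen (fun a b => Sat G φ ![a, b]) (v s) (v t)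

/-- For every vertex `z`, any two other vertices are joined by a path in `G - z`. -/
def TwoConnected {V : Type} (G : SimpleGraph V) : Prop :=
  ∀ (z x y : V) (hx : x ≠ z) (hy : y ≠ z), (G.induce {u | u ≠ z}).Reachable ⟨x, hx⟩ ⟨y, hy⟩

end Pool.Agent.Lib.MP_c527bb_lc
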