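import Mathlib
import Pool.Agent.Lib.MP_c527bb_lc.Defs

/-!
Back-and-forth between 4-regular graphs of large girth.
-/

set_option autoImplicit false

open Relation

namespace Pool.Agent.Lib.MP_c527bb_lc

/-- There is a walk of length at most `r`. -/
def Near {V : Type} (G : SimpleGraph V) (r : ℕ) (u v : V) : Prop :=
  ∃ p : G.Walk u v, p.length ≤ r

/-- No short cycle: a vertex outside a small set has at most one neighbour in each component. -/
def NoCyc {V : Type} (G : SimpleGraph V) (M : ℕ) : Prop :=
  ∀ A : Finset V, A.card < M → ∀ x, x ∉ A → ∀ a ∈ A, ∀ a' ∈ A, G.Adj x a → G.Adj x a' →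
    ReflTransGen (fun s t => s ∈ A ∧ t ∈ A ∧ G.Adj s t) a a' → a = a'

/-- Two steps. -/
def Two {V : Type} (G : SimpleGraph V) (u v : V) : Prop := ∃ c, G.Adj u c ∧ G.Adj c v

/-- The class of graphs on which the logic collapses. -/
structure Cls {V : Type} (G : SimpleGraph V) (M : ℕ) : Prop where
  ne : Nonempty V
  reg : ∀ v, (G.neighborSet v).ncard = 4
  cyc : NoCyc G M
  even : ∀ u v, ReflTransGen (Two G) u v

section basic

variable {V : Type} {G : SimpleGraph V}

theorem Near.mono {r s : ℕ} {u v : V} (h : Near G r u v) (hrs : r ≤ s) : Near G s u v :=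
  let ⟨p, hp⟩ := h; ⟨p, hp.trans hrs⟩

theorem Near.symm {r : ℕ} {u v : V} (h : Near G r u v) : Near G r v u :=
  let ⟨p, hp⟩ := h; ⟨p.reverse, by simpa using hp⟩

theorem Near.refl (r : ℕ) (u : V) : Near G r u u := ⟨.nil, Nat.zero_le _⟩

theorem Near.cons {r : ℕ} {u v w : V} (h : G.Adj u v) (h' : Near G r v w) : Near G (r + 1) u w :=
  let ⟨p, hp⟩ := h'; ⟨.cons h p, by simpa using hp⟩

theorem Near.adj {u v : V} (h : G.Adj u v) : Near G 1 u v := Near.cons h (Near.refl 0 v)

theorem Cls.mono {M M' : ℕ} (h : Cls G M) (hM : M' ≤ M) : Cls G M' :=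
  ⟨h.ne, h.reg, fun A hA => h.cyc A (hA.trans_le hM), h.even⟩

theorem Cls.fin {M : ℕ} (h : Cls G M) (v : V) : (G.neighborSet v).Finite :=
  Set.finite_of_ncard_ne_zero (by rw [h.reg]; norm_num)

theorem Cls.exists_nbr {M : ℕ} (h : Cls G M) (v a b c : V) :
    ∃ z, G.Adj v z ∧ z ≠ a ∧ z ≠ b ∧ z ≠ c := by
  by_contra hc
  push Not at hc
  have hsub : G.neighborSet v ⊆ {a, b, c} := by
    intro z hz
    by_cases h1 : z = a
    · simp [h1]
    · by_cases h2 : z = b
      · simp [h2]
      · simp [hc z hz h1 h2]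
  have h1 := Set.ncard_le_ncard hsub (Set.toFinite _)
  have h2 : ({a, b, c} : Set V).ncard ≤ 3 := by
    refine (Set.ncard_insert_le _ _).trans ?_
    have := Set.ncard_insert_le b ({c} : Set V)
    rw [Set.ncard_singleton] at this
    omega
  rw [h.reg] at h1
  omega

theorem Cls.ball {M : ℕ} (h : Cls G M) (v : V) (r : ℕ) :
    ∃ B : Finset V, B.card ≤ 5 ^ r ∧ ∀ u, Near G r u v → u ∈ B := by
  classical
  induction r with
  | zero =>
    refine ⟨{v}, by simp, ?_⟩
    rintro u ⟨p, hp⟩
    simpa using p.eq_of_length_eq_zero (by omega)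
  | succ r ih =>
    obtain ⟨B, hB, hmem⟩ := ih
    refine ⟨B ∪ B.biUnion (fun w => (h.fin w).toFinset), ?_, ?_⟩
    · refine (Finset.card_union_le _ _).trans ?_
      have : (B.biUnion (fun w => (h.fin w).toFinset)).card ≤ B.card * 4 := by
        refine Finset.card_biUnion_le_card_mul _ _ _ fun w _ => ?_
        rw [← Set.ncard_eq_toFinset_card _ (h.fin w), h.reg]
      rw [pow_succ]; omega
    · rintro u ⟨p, hp⟩
      cases p with
      | nil => exact Finset.mem_union_left _ (hmem _ (Near.refl _ _))
      | cons hadj q =>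
        refine Finset.mem_union_right _ (Finset.mem_biUnion.2 ⟨_, hmem _ ⟨q, ?_⟩, ?_⟩)
        · simpa using hp
        · simpa using hadj.symm

/-- A path given as a function. -/
def IsP (G : SimpleGraph V) (i : ℕ) (p : ℕ → V) : Prop :=
  (∀ j < i, G.Adj (p j) (p (j + 1))) ∧ ∀ j ≤ i, ∀ l ≤ i, p j = p l → j = l

theorem IsP.mono {i j : ℕ} {p : ℕ → V} (h : IsP G i p) (hj : j ≤ i) : IsP G j p :=
  ⟨fun l hl => h.1 l (by omega), fun a ha b hb => h.2 a (by omega) b (by omega)⟩

theorem IsP.rev {i : ℕ} {p : ℕ → V} (h : IsP G i p) : IsP G i (fun j => p (i - j)) := by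
  refine ⟨fun j hj => ?_, fun a ha b hb e => ?_⟩
  · have := (h.1 (i - (j + 1)) (by omega)).symm
    rwa [show i - (j + 1) + 1 = i - j by omega] at this
  · have := h.2 _ (by omega) _ (by omega) e
    omega

theorem IsP.conn {i : ℕ} {p : ℕ → V} (h : IsP G i p) (A : Finset V) (hA : ∀ j ≤ i, p j ∈ A)
    (a b : ℕ) (hab : a ≤ b) (hb : b ≤ i) :
    ReflTransGen (fun s t => s ∈ A ∧ t ∈ A ∧ G.Adj s t) (p a) (p b) := by
  induction hab with
  | refl => exact .refl
  | step hm ih =>
    rename_i m
    exact (ih (by omega)).tail ⟨hA _ (by omega), hA _ hb, h.1 _ hb⟩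

/-- Two paths that differ only in their first vertex. -/
theorem Cls.fork {M : ℕ} (h : Cls G M) (u c v : V) (huc : G.Adj u c) (hvc : G.Adj v c) (i : ℕ)
    (hi : i + 1 < M) :
    ∃ p q : ℕ → V, IsP G (i + 1) p ∧ IsP G (i + 1) q ∧ p 0 = u ∧ q 0 = v ∧
      ∀ j, p (j + 1) = q (j + 1) := by
  classical
  have key : ∀ i, i + 1 < M → ∃ w : ℕ → V, IsP G i w ∧ w 0 = c ∧ ∀ j ≤ i, w j ≠ u ∧ w j ≠ v := by
    intro i
    induction i with
    | zero =>
      intro _
      refine ⟨fun _ => c, ⟨by simp, by simp⟩, rfl, fun _ _ => ⟨huc.ne', hvc.ne'⟩⟩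
    | succ i ih =>
      intro hi
      obtain ⟨w, hw, h0, hne⟩ := ih (by omega)
      obtain ⟨z, hz, z1, z2, z3⟩ := h.exists_nbr (w i) u v (w (i - 1))
      have hnew : ∀ j ≤ i, w j ≠ z := by
        intro j hj e
        rcases Nat.eq_or_lt_of_le hj with rfl | hlt
        · exact hz.ne e
        · let A : Finset V := (Finset.range i).image w
          have hA : ∀ l ≤ i - 1, w l ∈ A := fun l hl =>
            Finset.mem_image.2 ⟨l, Finset.mem_range.2 (by omega), rfl⟩
          have hcard : A.card < M := by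
            have : A.card ≤ i := Finset.card_image_le.trans (by simp)
            omega
          have hnot : w i ∉ A := by
            intro hm
            obtain ⟨l, hl, e'⟩ := Finset.mem_image.1 hm
            have := hw.2 l (by have := Finset.mem_range.1 hl; omega) i le_rfl e'
            have := Finset.mem_range.1 hl
            omega
          have hadj : G.Adj (w i) (w (i - 1)) := by
            have := (hw.1 (i - 1) (by omega)).symm
            rwa [show i - 1 + 1 = i by omega] at this
          have := h.cyc A hcard (w i) hnot (w j) (hA j (by omega)) (w (i - 1)) (hA _ le_rfl)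
            (e ▸ hz) hadj ((hw.mono (Nat.sub_le i 1)).conn A hA j (i - 1) (by omega) le_rfl)
          exact z3 (e ▸ this)
      refine ⟨fun j => if j = i + 1 then z else w j, ⟨fun j hj => ?_, fun a ha b hb e => ?_⟩,
        by simp [h0], fun j hj => ?_⟩
      · by_cases hji : j = i
        · subst hji; simpa using hz
        · simp only [if_neg (show j ≠ i + 1 by omega), if_neg (show j + 1 ≠ i + 1 by omega)]
          exact hw.1 j (by omega)
      · by_cases h1 : a = i + 1 <;> by_cases h2 : b = i + 1
        · omega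
        · simp only [h1, if_pos, if_neg h2] at e
          exact absurd e.symm (hnew b (by omega))
        · simp only [h2, if_pos, if_neg h1] at e
          exact absurd e (hnew a (by omega))
        · simp only [if_neg h1, if_neg h2] at e
          exact hw.2 a (by omega) b (by omega) e
      · by_cases h1 : j = i + 1
        · simp only [h1, if_pos]; exact ⟨z1, z2⟩
        · simp only [if_neg h1]; exact hne j (by omega)
  obtain ⟨w, hw, h0, hne⟩ := key i hi
  have build : ∀ s, G.Adj s c → (∀ j ≤ i, w j ≠ s) →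
      IsP G (i + 1) (fun j => match j with | 0 => s | j + 1 => w j) := by
    intro s hs hn
    refine ⟨fun j hj => ?_, fun a ha b hb e => ?_⟩
    · cases j with
      | zero => simpa [h0] using hs
      | succ j => exact hw.1 j (by omega)
    · cases a with
      | zero =>
        cases b with
        | zero => rfl
        | succ b => exact absurd e.symm (hn b (by omega))
      | succ a =>
        cases b with
        | zero => exact absurd e (hn a (by omega))
        | succ b => rw [hw.2 a (by omega) b (by omega) e]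
  exact ⟨_, _, build u huc (fun j hj => (hne j hj).1), build v hvc (fun j hj => (hne j hj).2),
    rfl, rfl, fun _ => rfl⟩

theorem Cls.exists_far {M : ℕ} (h : Cls G M) (r : ℕ) (B : Finset V)
    (hM : B.card * 5 ^ r + 1 < M) : ∃ y, ∀ b ∈ B, ¬ Near G r y b := by
  classical
  obtain ⟨c⟩ := h.ne
  obtain ⟨u, hu, -⟩ := h.exists_nbr c c c c
  obtain ⟨p, -, hp, -⟩ := h.fork u c u hu.symm hu.symm (B.card * 5 ^ r) hM
  choose ball hball hmem using fun b => h.ball b r
  by_contra hc
  push Not at hc
  have hsub : (Finset.range (B.card * 5 ^ r + 2)).image p ⊆ B.biUnion ball := by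
    intro y _
    obtain ⟨b, hb, hn⟩ := hc y
    exact Finset.mem_biUnion.2 ⟨b, hb, hmem b y hn⟩
  have h1 := Finset.card_le_card hsub
  rw [Finset.card_image_of_injOn (fun a ha b hb e => hp.2 a
    (by have := Finset.mem_range.1 (Finset.mem_coe.1 ha); omega) b
    (by have := Finset.mem_range.1 (Finset.mem_coe.1 hb); omega) e), Finset.card_range] at h1
  have h2 := Finset.card_biUnion_le_card_mul B ball (5 ^ r) (fun b _ => hball b)
  omega

theorem Near.exists_path {r : ℕ} {u v : V} (h : Near G r u v) :
    ∃ i ≤ r, ∃ p : ℕ → V, IsP G i p ∧ p 0 = u ∧ p i = v := by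
  classical
  obtain ⟨p, hp⟩ := h
  refine ⟨p.bypass.length, p.length_bypass_le_length.trans hp, p.bypass.getVert,
    ⟨fun j hj => p.bypass.adj_getVert_succ hj, fun a ha b hb e => ?_⟩, by simp, by simp⟩
  exact p.bypass_isPath.getVert_injOn ha hb e

end basic

end Pool.Agent.Lib.MP_c527bb_lc
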