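import Mathlib
import Pool.Agent.Lib.MP_c527bb_lc.EF

/-!
The back-and-forth system and the collapse of the transitive-closure operator.
-/

set_option autoImplicit false

open Relation

namespace Pool.Agent.Lib.MP_c527bb_lc

theorem rtg_lift {α β : Type} {r : α → α → Prop} {p : β → β → Prop} (f : α → β)
    (h : ∀ a b, r a b → p (f a) (f b)) {a b : α} (hab : ReflTransGen r a b) :
    ReflTransGen p (f a) (f b) := by
  induction hab with
  | refl => exact .refl
  | tail _ h2 ih => exact ih.tail (h _ _ h2)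

theorem rtg_mono {α : Type} {r p : α → α → Prop}
    (h : ∀ a b, r a b → p a b) {a b : α} (hab : ReflTransGen r a b) : ReflTransGen p a b :=
  rtg_lift id h hab

variable {V W : Type}

/-- A finite isomorphism between induced subgraphs whose components are far apart. -/
structure Good (G : SimpleGraph V) (H : SimpleGraph W) (r : ℕ) (S : Finset (V × W)) : Prop where
  inj : ∀ p ∈ S, ∀ q ∈ S, (p.1 = q.1 ↔ p.2 = q.2)
  adj : ∀ p ∈ S, ∀ q ∈ S, (G.Adj p.1 q.1 ↔ H.Adj p.2 q.2)
  sep : ∀ p ∈ S, ∀ q ∈ S, ReflTransGen (fun s t => s ∈ S ∧ t ∈ S ∧ G.Adj s.1 t.1) p q ∨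
    (¬ Near G r p.1 q.1 ∧ ¬ Near H r p.2 q.2)

variable {G : SimpleGraph V} {H : SimpleGraph W}

theorem Good.mono {r s : ℕ} {S : Finset (V × W)} (h : Good G H r S) (hs : s ≤ r) :
    Good G H s S :=
  ⟨h.inj, h.adj, fun p hp q hq => (h.sep p hp q hq).imp_right
    fun c => ⟨fun n => c.1 (n.mono hs), fun n => c.2 (n.mono hs)⟩⟩

theorem Good.swap {r : ℕ} {S : Finset (V × W)} (h : Good G H r S) :
    Good H G r (S.map (Equiv.prodComm V W).toEmbedding) := by
  have hm : ∀ p : W × V, p ∈ S.map (Equiv.prodComm V W).toEmbedding ↔ p.swap ∈ S := by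
    intro p; simp [Finset.mem_map_equiv]
  refine ⟨fun p hp q hq => ?_, fun p hp q hq => ?_, fun p hp q hq => ?_⟩
  · exact (h.inj _ ((hm p).1 hp) _ ((hm q).1 hq)).symm
  · exact (h.adj _ ((hm p).1 hp) _ ((hm q).1 hq)).symm
  · rcases h.sep _ ((hm p).1 hp) _ ((hm q).1 hq) with c | c
    · left
      have := rtg_lift (r := fun s t => s ∈ S ∧ t ∈ S ∧ G.Adj s.1 t.1) (p := fun s t => s ∈ S.map (Equiv.prodComm V W).toEmbedding ∧
        t ∈ S.map (Equiv.prodComm V W).toEmbedding ∧ H.Adj s.1 t.1) Prod.swap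
        (fun a b hab => ⟨(hm _).2 (by simpa using hab.1), (hm _).2 (by simpa using hab.2.1),
          (h.adj _ hab.1 _ hab.2.1).1 hab.2.2⟩) c
      simpa using this
    · exact Or.inr ⟨c.2, c.1⟩

theorem conn_symm {S : Finset (V × W)} {p q : V × W}
    (h : ReflTransGen (fun s t => s ∈ S ∧ t ∈ S ∧ G.Adj s.1 t.1) p q) :
    ReflTransGen (fun s t => s ∈ S ∧ t ∈ S ∧ G.Adj s.1 t.1) q p := by
  induction h with
  | refl => exact .refl
  | tail _ h ih => exact ReflTransGen.head ⟨h.2.1, h.1, h.2.2.symm⟩ ih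

/-- A new neighbour of the domain has only one neighbour in the domain. -/
theorem Good.unique_nbr {r M : ℕ} {S : Finset (V × W)} (h : Good G H (r + 2) S) (hG : NoCyc G M)
    (hS : S.card < M) {p q : V × W} (hp : p ∈ S) (hq : q ∈ S) {x : V}
    (hx : ∀ s ∈ S, s.1 ≠ x) (h1 : G.Adj x p.1) (h2 : G.Adj x q.1) : p.1 = q.1 := by
  classical
  rcases h.sep p hp q hq with c | c
  · refine hG (S.image Prod.fst) (Finset.card_image_le.trans_lt hS) x ?_ p.1
      (Finset.mem_image_of_mem _ hp) q.1 (Finset.mem_image_of_mem _ hq) h1 h2 ?_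
    · intro hm
      obtain ⟨s, hs, e⟩ := Finset.mem_image.1 hm
      exact hx s hs e
    · exact rtg_lift (r := fun s t => s ∈ S ∧ t ∈ S ∧ G.Adj s.1 t.1) Prod.fst (fun a b hab => ⟨Finset.mem_image_of_mem _ hab.1,
        Finset.mem_image_of_mem _ hab.2.1, hab.2.2⟩) c
  · exact absurd ((Near.cons h1.symm (Near.adj h2)).mono (by omega)) c.1

theorem Good.insert_adj [DecidableEq (V × W)] {r M : ℕ} {S : Finset (V × W)}
    (h : Good G H (r + 2) S) (hG : NoCyc G M) (hH : NoCyc H M) (hS : S.card < M) {p : V × W}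
    (hp : p ∈ S) {x : V} {y : W} (hx : ∀ s ∈ S, s.1 ≠ x) (hy : ∀ s ∈ S, s.2 ≠ y)
    (h1 : G.Adj x p.1) (h2 : H.Adj y p.2) : Good G H (r + 1) (insert (x, y) S) := by
  have hm : ∀ s ∈ S, s.swap ∈ S.map (Equiv.prodComm V W).toEmbedding := by
    intro s hs; simp [Finset.mem_map_equiv, hs]
  have hadj : ∀ q ∈ S, (G.Adj x q.1 ↔ H.Adj y q.2) := by
    intro q hq
    constructor
    · intro a
      have := h.unique_nbr hG hS hp hq hx h1 a
      rwa [← (h.inj p hp q hq).1 this]
    · intro a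
      have := h.swap.unique_nbr hH (by simpa using hS) (hm p hp) (hm q hq) (x := y) (by
        intro s hs
        have : s.swap ∈ S := by simpa [Finset.mem_map_equiv] using hs
        exact hy _ this) h2 a
      rwa [← (h.inj p hp q hq).2 this]
  have hlift : ∀ {a b : V × W}, ReflTransGen (fun s t => s ∈ S ∧ t ∈ S ∧ G.Adj s.1 t.1) a b →
      ReflTransGen (fun s t => s ∈ insert (x, y) S ∧ t ∈ insert (x, y) S ∧ G.Adj s.1 t.1) a b :=
    fun c => rtg_mono (fun a b hab =>
      ⟨Finset.mem_insert_of_mem hab.1, Finset.mem_insert_of_mem hab.2.1, hab.2.2⟩) c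
  have hsep : ∀ q ∈ S, ReflTransGen
      (fun s t => s ∈ insert (x, y) S ∧ t ∈ insert (x, y) S ∧ G.Adj s.1 t.1) (x, y) q ∨
      (¬ Near G (r + 1) x q.1 ∧ ¬ Near H (r + 1) y q.2) := by
    intro q hq
    rcases h.sep p hp q hq with c | c
    · exact Or.inl (ReflTransGen.head
        ⟨Finset.mem_insert_self _ _, Finset.mem_insert_of_mem hp, h1⟩ (hlift c))
    · exact Or.inr ⟨fun n => c.1 (Near.cons h1.symm n), fun n => c.2 (Near.cons h2.symm n)⟩
  refine ⟨fun a ha b hb => ?_, fun a ha b hb => ?_, fun a ha b hb => ?_⟩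
  · rcases Finset.mem_insert.1 ha with rfl | ha <;> rcases Finset.mem_insert.1 hb with rfl | hb
    · simp
    · exact ⟨fun e => absurd e.symm (hx b hb), fun e => absurd e.symm (hy b hb)⟩
    · exact ⟨fun e => absurd e (hx a ha), fun e => absurd e (hy a ha)⟩
    · exact h.inj a ha b hb
  · rcases Finset.mem_insert.1 ha with rfl | ha <;> rcases Finset.mem_insert.1 hb with rfl | hb
    · simp
    · exact hadj b hb
    · rw [G.adj_comm, H.adj_comm]; exact hadj a ha
    · exact h.adj a ha b hb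
  · rcases Finset.mem_insert.1 ha with rfl | ha <;> rcases Finset.mem_insert.1 hb with rfl | hb
    · exact Or.inl .refl
    · exact hsep b hb
    · exact (hsep a ha).imp conn_symm fun c => ⟨fun n => c.1 n.symm, fun n => c.2 n.symm⟩
    · exact (h.sep a ha b hb).imp hlift fun c =>
        ⟨fun n => c.1 (n.mono (by omega)), fun n => c.2 (n.mono (by omega))⟩

theorem Good.insert_far [DecidableEq (V × W)] {r : ℕ} {S : Finset (V × W)}
    (h : Good G H (r + 1) S) {x : V} {y : W} (hx : ∀ s ∈ S, ¬ Near G (r + 1) x s.1)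
    (hy : ∀ s ∈ S, ¬ Near H (r + 1) y s.2) : Good G H (r + 1) (insert (x, y) S) := by
  have hi : ∀ s ∈ S, (x = s.1 ↔ y = s.2) := fun s hs =>
    ⟨fun e => absurd (e ▸ Near.refl _ _) (hx s hs), fun e => absurd (e ▸ Near.refl _ _) (hy s hs)⟩
  have ha : ∀ s ∈ S, (G.Adj x s.1 ↔ H.Adj y s.2) := fun s hs =>
    ⟨fun e => absurd ((Near.adj e).mono (by omega)) (hx s hs),
      fun e => absurd ((Near.adj e).mono (by omega)) (hy s hs)⟩
  refine ⟨fun a ha' b hb => ?_, fun a ha' b hb => ?_, fun a ha' b hb => ?_⟩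
  · rcases Finset.mem_insert.1 ha' with rfl | ha' <;> rcases Finset.mem_insert.1 hb with rfl | hb
    · simp
    · exact hi b hb
    · rw [eq_comm, @eq_comm _ a.2]; exact hi a ha'
    · exact h.inj a ha' b hb
  · rcases Finset.mem_insert.1 ha' with rfl | ha' <;> rcases Finset.mem_insert.1 hb with rfl | hb
    · simp
    · exact ha b hb
    · rw [G.adj_comm, H.adj_comm]; exact ha a ha'
    · exact h.adj a ha' b hb
  · rcases Finset.mem_insert.1 ha' with rfl | ha' <;> rcases Finset.mem_insert.1 hb with rfl | hb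
    · exact Or.inl .refl
    · exact Or.inr ⟨hx b hb, hy b hb⟩
    · exact Or.inr ⟨fun n => hx a ha' n.symm, fun n => hy a ha' n.symm⟩
    · exact (h.sep a ha' b hb).imp_left fun c => rtg_mono (fun a b hab =>
        ⟨Finset.mem_insert_of_mem hab.1, Finset.mem_insert_of_mem hab.2.1, hab.2.2⟩) c

/-- A free neighbour on one side gives a free neighbour on the other side. -/
theorem Good.exists_free {r M : ℕ} {S : Finset (V × W)} (h : Good G H r S) (hG : Cls G M)
    (hH : Cls H M) {p : V × W} (hp : p ∈ S) {x : V} (hx : ∀ s ∈ S, s.1 ≠ x)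
    (h1 : G.Adj x p.1) : ∃ y, H.Adj y p.2 ∧ ∀ s ∈ S, s.2 ≠ y := by
  by_contra hc
  push Not at hc
  have : Nonempty (V × W) := ⟨p⟩
  choose! f hf hf' using hc
  have hmaps : ∀ y ∈ H.neighborSet p.2, (f y).1 ∈ G.neighborSet p.1 \ {x} := by
    intro y hy
    have hy' : H.Adj y p.2 := (H.mem_neighborSet _ _).1 hy |>.symm
    refine ⟨?_, hx _ (hf y hy')⟩
    rw [SimpleGraph.mem_neighborSet, h.adj p hp _ (hf y hy'), hf' y hy']
    exact hy'.symm
  have hinj : Set.InjOn (fun y => (f y).1) (H.neighborSet p.2) := by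
    intro y hy z hz e
    have hy' : H.Adj y p.2 := (H.mem_neighborSet _ _).1 hy |>.symm
    have hz' : H.Adj z p.2 := (H.mem_neighborSet _ _).1 hz |>.symm
    have := (h.inj _ (hf y hy') _ (hf z hz')).1 e
    rwa [hf' y hy', hf' z hz'] at this
  have h2 := Set.ncard_le_ncard_of_injOn _ hmaps hinj ((hG.fin p.1).subset Set.sdiff_subset)
  have h3 := Set.ncard_sdiff_singleton_add_one (show x ∈ G.neighborSet p.1 from h1.symm) (hG.fin _)
  rw [hH.reg] at h2
  rw [hG.reg] at h3
  omega

theorem Good.extend_walk {M : ℕ} (hG : Cls G M) (hH : Cls H M) {a x : V} (w : G.Walk a x) :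
    ∀ (r : ℕ) (S : Finset (V × W)) (b : W), Good G H (r + 1 + w.length) S → (a, b) ∈ S →
      S.card + w.length < M →
      ∃ S', S ⊆ S' ∧ Good G H (r + 1) S' ∧ S'.card ≤ S.card + w.length ∧ ∃ y, (x, y) ∈ S' := by
  classical
  induction w with
  | nil => intro r S b h hab _; exact ⟨S, subset_rfl, h, by simp, b, hab⟩
  | cons hadj q ih =>
    rename_i a a₁ x
    intro r S b h hab hM
    simp only [SimpleGraph.Walk.length_cons] at h hM ⊢
    by_cases hin : ∃ s ∈ S, s.1 = a₁
    · obtain ⟨s, hs, e⟩ := hin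
      obtain ⟨S', h1, h2, h3, h4⟩ := ih r S s.2 (h.mono (by omega)) (by rw [← e]; exact hs)
        (by omega)
      exact ⟨S', h1, h2, by omega, h4⟩
    · push Not at hin
      obtain ⟨y, hy, hy'⟩ := h.exists_free hG hH hab hin hadj.symm
      have h' : Good G H (r + q.length + 2) S := h.mono (by omega)
      have hg := h'.insert_adj hG.cyc hH.cyc (by omega) hab hin hy' hadj.symm hy
      have hc := Finset.card_insert_le (a₁, y) S
      obtain ⟨S', h1, h2, h3, h4⟩ := ih r (insert (a₁, y) S) y (hg.mono (by omega))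
        (Finset.mem_insert_self _ _) (by omega)
      exact ⟨S', (Finset.subset_insert _ _).trans h1, h2, by omega, h4⟩

theorem Good.extend {M r : ℕ} (hG : Cls G M) (hH : Cls H M) {S : Finset (V × W)}
    (h : Good G H (2 * (r + 1)) S) (hM : S.card * 5 ^ (r + 1) + S.card + r + 2 < M) (x : V) :
    ∃ S', S ⊆ S' ∧ Good G H (r + 1) S' ∧ S'.card ≤ S.card + (r + 1) ∧ ∃ y, (x, y) ∈ S' := by
  classical
  by_cases hn : ∃ s ∈ S, Near G (r + 1) x s.1
  · obtain ⟨s, hs, n⟩ := hn
    obtain ⟨w, hw⟩ := n.symm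
    obtain ⟨S', h1, h2, h3, h4⟩ := Good.extend_walk hG hH w r S s.2 (h.mono (by omega)) hs
      (by omega)
    exact ⟨S', h1, h2, by omega, h4⟩
  · push Not at hn
    obtain ⟨y, hy⟩ := hH.exists_far (r + 1) (S.image Prod.snd) (by
      have : (S.image Prod.snd).card * 5 ^ (r + 1) ≤ S.card * 5 ^ (r + 1) :=
        Nat.mul_le_mul_right _ Finset.card_image_le
      omega)
    refine ⟨insert (x, y) S, Finset.subset_insert _ _, (h.mono (by omega)).insert_far hn
      (fun s hs => hy _ (Finset.mem_image_of_mem _ hs)), ?_, y, Finset.mem_insert_self _ _⟩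
    have := Finset.card_insert_le (x, y) S
    omega

theorem good_empty (r : ℕ) : Good G H r ∅ := ⟨by simp, by simp, by simp⟩

theorem good_path {M : ℕ} (hG : NoCyc G M) (hH : NoCyc H M) {p : ℕ → V} {q : ℕ → W} :
    ∀ i, i < M → IsP G i p → IsP H i q → ∀ r, ∃ S, Good G H (r + 1) S ∧ S.card ≤ i + 1 ∧
      ∀ s, s ∈ S ↔ ∃ j ≤ i, s = (p j, q j) := by
  classical
  intro i
  induction i with
  | zero =>
    intro _ _ _ r
    refine ⟨insert (p 0, q 0) ∅, (good_empty _).insert_far (by simp) (by simp), by simp, by simp⟩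
  | succ i ih =>
    intro hi hp hq r
    obtain ⟨S, h1, h2, h3⟩ := ih (by omega) (hp.mono (by omega)) (hq.mono (by omega)) (r + 1)
    refine ⟨insert (p (i + 1), q (i + 1)) S, h1.insert_adj hG hH (by omega)
      ((h3 (p i, q i)).2 ⟨i, le_rfl, rfl⟩) ?_ ?_ (hp.1 i (by omega)).symm
      (hq.1 i (by omega)).symm, ?_, fun s => ?_⟩
    · intro s hs e
      obtain ⟨j, hj, rfl⟩ := (h3 s).1 hs
      have := hp.2 j (by omega) (i + 1) le_rfl e
      omega
    · intro s hs e
      obtain ⟨j, hj, rfl⟩ := (h3 s).1 hs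
      have := hq.2 j (by omega) (i + 1) le_rfl e
      omega
    · have := Finset.card_insert_le (p (i + 1), q (i + 1)) S
      omega
    · rw [Finset.mem_insert, h3]
      constructor
      · rintro (rfl | ⟨j, hj, rfl⟩)
        · exact ⟨i + 1, le_rfl, rfl⟩
        · exact ⟨j, by omega, rfl⟩
      · rintro ⟨j, hj, rfl⟩
        rcases Nat.eq_or_lt_of_le hj with rfl | hlt
        · exact Or.inl rfl
        · exact Or.inr ⟨j, by omega, rfl⟩

/-- If an invariant relation holds of two distinct vertices, its transitive closure is full. -/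
theorem tc_full {M r : ℕ} (hG : Cls G M) (hH : Cls H M) (R : V → V → Prop) (R' : W → W → Prop)
    (hM : 2 * 5 ^ (r + 1) + r + 2 < M)
    (htr : ∀ S, Good G H (r + 1) S → S.card ≤ r + 2 → ∀ x y u v, (x, u) ∈ S → (y, v) ∈ S →
      R x y → R' u v)
    {x y : V} (hxy : x ≠ y) (hR : R x y) (u v : W) : TransGen R' u v := by
  classical
  by_cases hn : Near G (r + 1) x y
  · obtain ⟨i, hi, p, hp, h0, h1⟩ := hn.exists_path
    obtain ⟨i, rfl⟩ : ∃ j, i = j + 1 := by
      cases i with
      | zero => exact absurd (h0.symm.trans h1) hxy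
      | succ j => exact ⟨j, rfl⟩
    have hpath : ∀ q : ℕ → W, IsP H (i + 1) q → R' (q 0) (q (i + 1)) := by
      intro q hq
      obtain ⟨S, a, b, c⟩ := good_path hG.cyc hH.cyc (i + 1) (by omega) hp hq r
      exact htr S a (by omega) x y _ _ ((c _).2 ⟨0, by omega, by rw [h0]⟩)
        ((c _).2 ⟨i + 1, le_rfl, by rw [h1]⟩) hR
    have htwo : ∀ a b, Two H a b → TransGen R' a b := by
      rintro a b ⟨c, hac, hcb⟩
      obtain ⟨q, q', hq, hq', e0, e0', e⟩ := hH.fork a c b hac hcb.symm i (by omega)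
      have s1 := hpath q hq
      have s2 := hpath _ hq'.rev
      simp only [Nat.sub_zero, Nat.sub_self] at s2
      rw [e0, e i] at s1
      rw [e0'] at s2
      exact (TransGen.single s1).tail s2
    rcases (hH.even u v).cases_head with rfl | ⟨c, h2, h3⟩
    · obtain ⟨c, hc, -⟩ := hH.exists_nbr u u u u
      exact htwo u u ⟨c, hc, hc.symm⟩
    · have := htwo _ _ h2
      clear h2
      induction h3 with
      | refl => exact this
      | tail _ h ih => exact ih.trans (htwo _ _ h)
  · obtain ⟨w, hw⟩ := hH.exists_far (r + 1) {u, v} (by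
      have : ({u, v} : Finset W).card * 5 ^ (r + 1) ≤ 2 * 5 ^ (r + 1) :=
        Nat.mul_le_mul_right _ Finset.card_le_two
      omega)
    have hpair : ∀ a b : W, ¬ Near H (r + 1) a b → R' a b := by
      intro a b hab
      have g1 : Good G H (r + 1) (insert (y, b) ∅) := (good_empty _).insert_far (by simp) (by simp)
      have g2 := g1.insert_far (x := x) (y := a) (by simpa using hn) (by simpa using hab)
      refine htr _ g2 ?_ x y a b (by simp) (by simp) hR
      have := Finset.card_insert_le (x, a) (insert (y, b) (∅ : Finset (V × W)))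
      have h2 := Finset.card_insert_le (y, b) (∅ : Finset (V × W))
      simp only [Finset.card_empty] at h2
      omega
    exact (TransGen.single (hpair u w fun n => hw u (by simp) n.symm)).tail
      (hpair w v (hw v (by simp)))

theorem transGen_diag {α : Type} {R : α → α → Prop} (h : ∀ x y, R x y → x = y) {a b : α}
    (hab : TransGen R a b) : R a b := by
  induction hab with
  | single h1 => exact h1
  | tail _ h2 ih => rw [← h _ _ h2]; exact ih

/-- Every formula is invariant under good finite isomorphisms. -/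
theorem invariant {n : ℕ} (φ : Fml n) : ∃ r : ℕ, ∀ k : ℕ, ∃ M : ℕ,
    ∀ (V W : Type) (G : SimpleGraph V) (H : SimpleGraph W), Cls G M → Cls H M →
      ∀ S : Finset (V × W), Good G H (r + 1) S → S.card ≤ k →
        ∀ (a : Fin n → V) (b : Fin n → W), (∀ i, (a i, b i) ∈ S) → Sat G φ a → Sat H φ b := by
  have hswap : ∀ {V W : Type} {S : Finset (V × W)} {a : V} {b : W}, (a, b) ∈ S →
      (b, a) ∈ S.map (Equiv.prodComm V W).toEmbedding := by
    intro V W S a b h; simp [Finset.mem_map_equiv, h]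
  induction φ with
  | adj i j =>
    exact ⟨0, fun _ => ⟨0, fun V W G H _ _ S hS _ a b hab h => (hS.adj _ (hab i) _ (hab j)).1 h⟩⟩
  | eq i j =>
    exact ⟨0, fun _ => ⟨0, fun V W G H _ _ S hS _ a b hab h => (hS.inj _ (hab i) _ (hab j)).1 h⟩⟩
  | neg φ ih =>
    obtain ⟨r, hr⟩ := ih
    refine ⟨r, fun k => ?_⟩
    obtain ⟨M, hM⟩ := hr k
    refine ⟨M, fun V W G H hG hH S hS hk a b hab h h' => h ?_⟩
    exact hM W V H G hH hG _ hS.swap (by simpa using hk) b a (fun i => hswap (hab i)) h'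
  | conj φ ψ ih1 ih2 =>
    obtain ⟨r1, hr1⟩ := ih1
    obtain ⟨r2, hr2⟩ := ih2
    refine ⟨max r1 r2, fun k => ?_⟩
    obtain ⟨M1, hM1⟩ := hr1 k
    obtain ⟨M2, hM2⟩ := hr2 k
    refine ⟨max M1 M2, fun V W G H hG hH S hS hk a b hab h => ⟨?_, ?_⟩⟩
    · exact hM1 V W G H (hG.mono (by omega)) (hH.mono (by omega)) S (hS.mono (by omega)) hk a b
        hab h.1
    · exact hM2 V W G H (hG.mono (by omega)) (hH.mono (by omega)) S (hS.mono (by omega)) hk a b
        hab h.2
  | ex φ ih =>
    obtain ⟨r, hr⟩ := ih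
    refine ⟨2 * r + 1, fun k => ?_⟩
    obtain ⟨M, hM⟩ := hr (k + (r + 1))
    refine ⟨max M (k * 5 ^ (r + 1) + k + r + 3), fun V W G H hG hH S hS hk a b hab h => ?_⟩
    obtain ⟨x, hx⟩ := h
    obtain ⟨S', h1, h2, h3, y, h4⟩ := Good.extend (r := r) hG hH (hS.mono (by omega)) (by
      have : S.card * 5 ^ (r + 1) ≤ k * 5 ^ (r + 1) := Nat.mul_le_mul_right _ hk
      omega) x
    refine ⟨y, hM V W G H (hG.mono (by omega)) (hH.mono (by omega)) S' h2 (by omega) _ _ ?_ hx⟩
    intro i
    refine Fin.cases ?_ (fun j => ?_) i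
    · simpa using h4
    · simpa using h1 (hab j)
  | tc φ s t ih =>
    obtain ⟨r, hr⟩ := ih
    refine ⟨r, fun k => ?_⟩
    obtain ⟨M1, hM1⟩ := hr k
    obtain ⟨M2, hM2⟩ := hr (r + 2)
    refine ⟨max (max M1 M2) (2 * 5 ^ (r + 1) + r + 3), fun V W G H hG hH S hS hk a b hab h => ?_⟩
    by_cases hex : ∃ x y, x ≠ y ∧ Sat G φ ![x, y]
    · obtain ⟨x, y, hxy, hφ⟩ := hex
      refine tc_full (r := r) hG hH (fun x y => Sat G φ ![x, y]) (fun x y => Sat H φ ![x, y])
        (by omega) ?_ hxy hφ _ _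
      intro S' g c x y u v m1 m2 h'
      refine hM2 V W G H (hG.mono (by omega)) (hH.mono (by omega)) S' g c _ _ ?_ h'
      intro i; fin_cases i
      · simpa using m1
      · simpa using m2
    · push Not at hex
      have h1 : Sat G φ ![a s, a t] := transGen_diag (R := fun x y => Sat G φ ![x, y])
        (fun x y hxy => by by_contra hne; exact hex x y hne hxy) h
      refine TransGen.single (hM1 V W G H (hG.mono (by omega)) (hH.mono (by omega)) S hS hk _ _
        ?_ h1)
      intro i; fin_cases i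
      · simpa using hab s
      · simpa using hab t

/-- A sentence cannot separate two graphs of the class. -/
theorem sentence (ψ : Fml 0) : ∃ M : ℕ, ∀ (V W : Type) (G : SimpleGraph V) (H : SimpleGraph W),
    Cls G M → Cls H M → Sat G ψ ![] → Sat H ψ ![] := by
  obtain ⟨r, hr⟩ := invariant ψ
  obtain ⟨M, hM⟩ := hr 0
  exact ⟨M, fun V W G H hG hH h => hM V W G H hG hH ∅ (good_empty _) (by simp) _ _
    (fun i => i.elim0) h⟩

end Pool.Agent.Lib.MP_c527bb_lc
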