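import Mathlib
import Pool.Agent.Lib.MP_c527bb_lc.Game

/-!
Girth conditions, and two copies of a graph glued at a new cut vertex.
-/

set_option autoImplicit false

open Relation

namespace Pool.Agent.Lib.MP_c527bb_lc

variable {V : Type} {G : SimpleGraph V}

/-- No short closed non-backtracking walk. -/
def NBW (G : SimpleGraph V) (M : ℕ) : Prop :=
  ∀ (p : ℕ → V) (n : ℕ), 1 ≤ n → n ≤ M → (∀ j < n, G.Adj (p j) (p (j + 1))) →
    (∀ j, j + 2 ≤ n → p (j + 2) ≠ p j) → p n ≠ p 0

/-- Small sets have a vertex, other than a given one, with at most one neighbour inside. -/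
def Deg (G : SimpleGraph V) (M : ℕ) : Prop :=
  ∀ A : Finset V, A.card ≤ M → ∀ z, (∃ x ∈ A, x ≠ z) →
    ∃ x ∈ A, x ≠ z ∧ ∀ n ∈ A, ∀ n' ∈ A, G.Adj x n → G.Adj x n' → n = n'

/-- Small sets have a vertex with at most one neighbour inside. -/
def WDeg (G : SimpleGraph V) (M : ℕ) : Prop :=
  ∀ A : Finset V, A.card ≤ M → A.Nonempty →
    ∃ x ∈ A, ∀ n ∈ A, ∀ n' ∈ A, G.Adj x n → G.Adj x n' → n = n'

theorem NBW.deg {M : ℕ} (h : NBW G M) : Deg G M := by
  classical
  intro A hA z hx
  by_contra hc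
  push Not at hc
  have two : ∀ x ∈ A, x ≠ z → ∀ prev, ∃ n ∈ A, G.Adj x n ∧ n ≠ prev := by
    intro x hx hz prev
    obtain ⟨n, hn, n', hn', a, a', ne⟩ := hc x hx hz
    by_cases e : n = prev
    · exact ⟨n', hn', a', fun e' => ne (e.trans e'.symm)⟩
    · exact ⟨n, hn, a, e⟩
  obtain ⟨s, hs, s', hs', hss', hz⟩ : ∃ s ∈ A, ∃ s' ∈ A, G.Adj s s' ∧
      (s = z ∨ ∀ a ∈ A, z ∈ A → ¬ G.Adj a z) := by
    by_cases hz : ∃ a ∈ A, z ∈ A ∧ G.Adj a z
    · obtain ⟨a, ha, hzA, hadj⟩ := hz
      exact ⟨z, hzA, a, ha, hadj.symm, Or.inl rfl⟩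
    · push Not at hz
      obtain ⟨x, hxA, hxz⟩ := hx
      obtain ⟨n, hn, a, -⟩ := two x hxA hxz x
      exact ⟨x, hxA, n, hn, a, Or.inr hz⟩
  have walk : ∀ n, n ≤ M → ∃ p : ℕ → V, p 0 = s ∧ (∀ j ≤ n + 1, p j ∈ A) ∧
      (∀ j < n + 1, G.Adj (p j) (p (j + 1))) ∧ ∀ j, j + 2 ≤ n + 1 → p (j + 2) ≠ p j := by
    intro n
    induction n with
    | zero =>
      intro _
      refine ⟨fun j => if j = 0 then s else s', by simp, fun j _ => ?_, fun j hj => ?_,
        fun j hj => by omega⟩
      · dsimp only; split_ifs <;> assumption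
      · obtain rfl : j = 0 := by omega
        simpa using hss'
    | succ n ih =>
      intro hn
      obtain ⟨p, p0, pA, padj, pnb⟩ := ih (by omega)
      have hne : p (n + 1) ≠ z := by
        rcases hz with hz | hz
        · rw [← hz, ← p0]
          exact h p (n + 1) (by omega) hn padj pnb
        · intro e
          exact hz (p n) (pA n (by omega)) (e ▸ pA (n + 1) le_rfl) (e ▸ padj n (by omega))
      obtain ⟨y, hy, hadj, hyn⟩ := two _ (pA (n + 1) le_rfl) hne (p n)
      refine ⟨fun j => if j = n + 2 then y else p j, by simp [p0], fun j hj => ?_,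
        fun j hj => ?_, fun j hj => ?_⟩
      · dsimp only; split_ifs with e
        · exact hy
        · exact pA j (by omega)
      · by_cases e : j = n + 1
        · subst e; simpa using hadj
        · simp only [if_neg (show j ≠ n + 2 by omega), if_neg (show j + 1 ≠ n + 2 by omega)]
          exact padj j (by omega)
      · by_cases e : j = n
        · subst e; simpa using hyn
        · simp only [if_neg (show j ≠ n + 2 by omega), if_neg (show j + 2 ≠ n + 2 by omega)]
          exact pnb j (by omega)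
  obtain ⟨p, -, pA, padj, pnb⟩ := walk M le_rfl
  obtain ⟨i, hi, j, hj, hij, e⟩ := Finset.exists_ne_map_eq_of_card_lt_of_maps_to
    (s := Finset.range (M + 1)) (t := A) (f := p) (by simp; omega)
    (fun j hj => pA j (by have := Finset.mem_range.1 (Finset.mem_coe.1 hj); omega))
  have key : ∀ i j, i < j → j ≤ M → p i ≠ p j := by
    intro i j hlt hj e
    refine h (fun l => p (i + l)) (j - i) (by omega) (by omega)
      (fun l hl => padj (i + l) (by omega)) (fun l hl => pnb (i + l) (by omega)) ?_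
    simp only [add_zero]
    rw [show i + (j - i) = j by omega, e]
  have hi' := Finset.mem_range.1 hi
  have hj' := Finset.mem_range.1 hj
  rcases lt_or_gt_of_ne hij with hlt | hlt
  · exact key i j hlt (by omega) e
  · exact key j i hlt (by omega) e.symm

theorem Deg.wdeg {M : ℕ} (h : Deg G M) : WDeg G M := by
  intro A hA ⟨x, hx⟩
  by_cases h1 : ∃ y ∈ A, y ≠ x
  · obtain ⟨y, hy, -, h2⟩ := h A hA x h1
    exact ⟨y, hy, h2⟩
  · push Not at h1
    exact ⟨x, hx, fun n hn n' hn' _ _ => (h1 n hn).trans (h1 n' hn').symm⟩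

theorem WDeg.noCyc {M : ℕ} (h : WDeg G M) : NoCyc G M := by
  classical
  intro A
  induction' hc : A.card using Nat.strong_induction_on with k ih generalizing A
  intro hA x hx a ha a' ha' h1 h2 hconn
  by_contra hne
  obtain ⟨c, hcA, huniq⟩ := h (insert x A) (by
    have := Finset.card_insert_le x A
    omega) (Finset.insert_nonempty _ _)
  have hxi : x ∈ insert x A := Finset.mem_insert_self _ _
  rcases Finset.mem_insert.1 hcA with rfl | hcA
  · exact hne (huniq a (Finset.mem_insert_of_mem ha) a' (Finset.mem_insert_of_mem ha') h1 h2)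
  have hca : c ≠ a := by
    rintro rfl
    rcases hconn.cases_head with e | ⟨t, ht, -⟩
    · exact hne e
    · exact hx (huniq t (Finset.mem_insert_of_mem ht.2.1) x hxi ht.2.2 h1.symm ▸ ht.2.1)
  have hca' : c ≠ a' := by
    rintro rfl
    rcases hconn.cases_tail with e | ⟨t, -, ht⟩
    · exact hne e.symm
    · exact hx (huniq t (Finset.mem_insert_of_mem ht.1) x hxi ht.2.2.symm h2.symm ▸ ht.1)
  have key : ∀ t, ReflTransGen (fun s t => s ∈ A ∧ t ∈ A ∧ G.Adj s t) a t →
      (t ≠ c → ReflTransGen (fun s t => s ∈ A.erase c ∧ t ∈ A.erase c ∧ G.Adj s t) a t) ∧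
      (t = c → ∃ n ∈ A, G.Adj c n ∧
        ReflTransGen (fun s t => s ∈ A.erase c ∧ t ∈ A.erase c ∧ G.Adj s t) a n) := by
    intro t ht
    induction ht with
    | refl => exact ⟨fun _ => .refl, fun e => absurd e.symm hca⟩
    | tail _ hst ih2 =>
      rename_i s t _
      by_cases hs : s = c
      · obtain ⟨n, hn, hcn, hr⟩ := ih2.2 hs
        have : t = n := huniq t (Finset.mem_insert_of_mem hst.2.1) n (Finset.mem_insert_of_mem hn)
          (hs ▸ hst.2.2) hcn
        exact ⟨fun _ => this ▸ hr, fun e => absurd (hs.trans e.symm) hst.2.2.ne⟩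
      · exact ⟨fun ht => (ih2.1 hs).tail ⟨Finset.mem_erase.2 ⟨hs, hst.1⟩,
          Finset.mem_erase.2 ⟨ht, hst.2.1⟩, hst.2.2⟩,
          fun e => ⟨s, hst.1, e ▸ hst.2.2.symm, ih2.1 hs⟩⟩
  have hlt : (A.erase c).card < k := hc ▸ Finset.card_erase_lt_of_mem hcA
  exact hne (ih _ hlt (A.erase c) rfl (by omega) x (fun m => hx (Finset.mem_of_mem_erase m)) a
    (Finset.mem_erase.2 ⟨hca.symm, ha⟩) a' (Finset.mem_erase.2 ⟨hca'.symm, ha'⟩) h1 h2
    ((key a' hconn).1 hca'.symm))

theorem two_symm {u v : V} (h : ReflTransGen (Two G) u v) : ReflTransGen (Two G) v u := by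
  induction h with
  | refl => exact .refl
  | tail _ h ih => exact ReflTransGen.head (let ⟨c, a, b⟩ := h; ⟨c, b.symm, a.symm⟩) ih

/-- In a connected graph with an odd closed walk any two vertices are joined by an even walk. -/
theorem even_of_odd (hc : G.Preconnected) (p : ℕ → V) (k : ℕ)
    (hp : ∀ j, G.Adj (p j) (p (j + 1))) (hk : p (2 * k + 1) = p 0) (u v : V) :
    ReflTransGen (Two G) u v := by
  have h1 : ∀ j, ReflTransGen (Two G) (p 0) (p (2 * j)) := by
    intro j
    induction j with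
    | zero => exact .refl
    | succ j ih => exact ih.tail ⟨p (2 * j + 1), hp _, hp _⟩
  have h2 : ∀ x, G.Reachable (p 0) x → ∀ y, G.Adj x y → ReflTransGen (Two G) x y := by
    intro x hx
    rw [SimpleGraph.reachable_iff_reflTransGen] at hx
    induction hx with
    | refl =>
      intro y hy
      exact (h1 k).tail ⟨p 0, hk ▸ hp (2 * k), hy⟩
    | tail _ hst ih =>
      intro y hy
      exact (two_symm (ih _ hst)).tail ⟨_, hst, hy⟩
  have h3 := hc u v
  rw [SimpleGraph.reachable_iff_reflTransGen] at h3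
  induction h3 with
  | refl => exact .refl
  | tail _ hst ih => exact ih.trans (h2 _ (hc _ _) _ hst)

/-- Two copies of `G` without the edge `u v`, and a new vertex joined to the four ends. -/
def glue (G : SimpleGraph V) (u v : V) : SimpleGraph (Option (Bool × V)) where
  Adj a b := match a, b with
    | none, none => False
    | none, some y => y.2 = u ∨ y.2 = v
    | some x, none => x.2 = u ∨ x.2 = v
    | some x, some y => x.1 = y.1 ∧ G.Adj x.2 y.2 ∧ ¬ (x.2 = u ∧ y.2 = v) ∧ ¬ (x.2 = v ∧ y.2 = u)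
  symm := ⟨by
    rintro (_ | x) (_ | y) h
    · exact h
    · exact h
    · exact h
    · exact ⟨h.1.symm, h.2.1.symm, fun e => h.2.2.2 ⟨e.2, e.1⟩, fun e => h.2.2.1 ⟨e.2, e.1⟩⟩⟩
  loopless := ⟨by
    rintro (_ | x) h
    · exact h
    · exact h.2.1.ne rfl⟩

theorem glue_some {u v : V} {x y : Bool × V} : (glue G u v).Adj (some x) (some y) ↔
    x.1 = y.1 ∧ G.Adj x.2 y.2 ∧ ¬ (x.2 = u ∧ y.2 = v) ∧ ¬ (x.2 = v ∧ y.2 = u) := Iff.rfl

theorem glue_none {u v : V} {x : Bool × V} : (glue G u v).Adj (some x) none ↔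
    x.2 = u ∨ x.2 = v := Iff.rfl

theorem glue_none' {u v : V} {x : Bool × V} : (glue G u v).Adj none (some x) ↔
    x.2 = u ∨ x.2 = v := Iff.rfl

theorem glue_not_two {u v : V} : ¬ TwoConnected (glue G u v) := by
  intro h
  have h1 := h none (some (true, u)) (some (false, u)) (by simp) (by simp)
  rw [SimpleGraph.reachable_iff_reflTransGen] at h1
  have key : ∀ b : {a : Option (Bool × V) | a ≠ none}, ReflTransGen
      ((glue G u v).induce {a | a ≠ none}).Adj ⟨some (true, u), by simp⟩ b →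
      ∃ x, b.1 = some (true, x) := by
    intro b hb
    induction hb with
    | refl => exact ⟨u, rfl⟩
    | tail _ hst ih =>
      rename_i s t _
      obtain ⟨x, hx⟩ := ih
      obtain ⟨t, ht⟩ := t
      cases t with
      | none => exact absurd rfl ht
      | some y =>
        have : (glue G u v).Adj s.1 (some y) := hst
        rw [hx] at this
        exact ⟨y.2, by rw [show (true : Bool) = y.1 from this.1]⟩
  obtain ⟨x, hx⟩ := key _ h1
  simp at hx

theorem glue_conn {u v : V} (hc : G.Preconnected) : (glue G u v).Preconnected := by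
  have h1 : ∀ c x, (glue G u v).Reachable none (some (c, x)) := by
    intro c x
    have := hc u x
    rw [SimpleGraph.reachable_iff_reflTransGen] at this
    induction this with
    | refl => exact SimpleGraph.Adj.reachable (glue_none'.2 (Or.inl rfl))
    | tail _ hst ih =>
      rename_i s t _
      by_cases ht : t = u ∨ t = v
      · exact SimpleGraph.Adj.reachable (glue_none'.2 ht)
      · push Not at ht
        exact ih.trans (SimpleGraph.Adj.reachable
          (glue_some.2 ⟨rfl, hst, fun e => ht.2 e.2, fun e => ht.1 e.2⟩))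
  have h2 : ∀ a, (glue G u v).Reachable none a := by
    rintro (_ | ⟨c, x⟩)
    · rfl
    · exact h1 c x
  exact fun a b => (h2 a).symm.trans (h2 b)

theorem glue_reg {u v : V} (huv : G.Adj u v) (hr : ∀ x, (G.neighborSet x).ncard = 4)
    (a : Option (Bool × V)) : ((glue G u v).neighborSet a).ncard = 4 := by
  classical
  cases a with
  | none =>
    have : (glue G u v).neighborSet none =
        {some (true, u), some (true, v), some (false, u), some (false, v)} := by
      ext b
      rcases b with _ | ⟨c, y⟩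
      · simp
      · rw [SimpleGraph.mem_neighborSet, glue_none']
        cases c <;> simp
    rw [this, Set.ncard_eq_four]
    have := huv.ne
    exact ⟨_, _, _, _, by simp [this], by simp, by simp, by simp, by simp, by simp [this], rfl⟩
  | some x =>
    obtain ⟨c, x⟩ := x
    rw [← hr x]
    symm
    refine Set.ncard_congr (fun y _ =>
      if (x = u ∧ y = v) ∨ (x = v ∧ y = u) then none else some (c, y)) ?_ ?_ ?_
    · intro y hy
      split_ifs with e
      · exact (glue_none (G := G) (x := (c, x))).2 (e.imp And.left And.left)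
      · push Not at e
        exact glue_some.2 ⟨rfl, hy, fun f => e.1 f.1 f.2, fun f => e.2 f.1 f.2⟩
    · intro y y' hy hy' e
      split_ifs at e with e1 e2
      · rcases e1 with e1 | e1 <;> rcases e2 with e2 | e2
        · rw [e1.2, e2.2]
        · exact absurd (e1.1.symm.trans e2.1) huv.ne
        · exact absurd (e2.1.symm.trans e1.1) huv.ne
        · rw [e1.2, e2.2]
      · simpa using e
    · rintro (_ | ⟨c', y⟩) hb
      · rcases (glue_none (G := G) (x := (c, x))).1 hb with e | e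
        · exact ⟨v, by rw [show x = u from e]; exact huv, if_pos (Or.inl ⟨e, rfl⟩)⟩
        · exact ⟨u, by rw [show x = v from e]; exact huv.symm, if_pos (Or.inr ⟨e, rfl⟩)⟩
      · obtain ⟨e, hadj, n1, n2⟩ := (glue_some (G := G) (x := (c, x)) (y := (c', y))).1 hb
        refine ⟨y, hadj, ?_⟩
        rw [if_neg (fun f => f.elim n1 n2), show c = c' from e]

theorem glue_wdeg {u v : V} {M : ℕ} (huv : G.Adj u v) (h : Deg G M) : WDeg (glue G u v) M := by
  classical
  intro A hA ⟨a, ha⟩
  by_contra hc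
  push Not at hc
  obtain ⟨c, x₀, hx₀⟩ : ∃ c x, some (c, x) ∈ A := by
    rcases a with _ | ⟨c, x⟩
    · obtain ⟨n, hn, -, -, hadj, -⟩ := hc none ha
      rcases n with _ | ⟨c, x⟩
      · exact absurd hadj (by simp)
      · exact ⟨c, x, hn⟩
    · exact ⟨c, x, ha⟩
  let B : Finset V := A.preimage (fun y => some (c, y)) (fun _ _ _ _ e => by simpa using e)
  have hB : ∀ y, y ∈ B ↔ some (c, y) ∈ A := fun y => Finset.mem_preimage
  have hcard : B.card ≤ M := by
    refine le_trans ?_ hA
    exact Finset.card_le_card_of_injOn (fun y => some (c, y)) (fun y hy => (hB y).1 hy)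
      (fun _ _ _ _ e => by simpa using e)
  have nb : ∀ x n, n ∈ A → (glue G u v).Adj (some (c, x)) n →
      (n = none ∧ (x = u ∨ x = v)) ∨ ∃ y ∈ B, n = some (c, y) ∧ G.Adj x y ∧
        ¬ (x = u ∧ y = v) ∧ ¬ (x = v ∧ y = u) := by
    rintro x (_ | ⟨c', y⟩) hn hadj
    · exact Or.inl ⟨rfl, hadj⟩
    · obtain ⟨e, h1⟩ := glue_some.1 hadj
      obtain rfl : c = c' := e
      exact Or.inr ⟨y, (hB y).2 hn, rfl, h1⟩
  have two : ∀ x ∈ B, (x = u → v ∈ B) → (x = v → u ∈ B) →
      ¬ ∀ n ∈ B, ∀ n' ∈ B, G.Adj x n → G.Adj x n' → n = n' := by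
    intro x hx hu hv huniq
    obtain ⟨n, hn, n', hn', a1, a2, ne⟩ := hc _ ((hB x).1 hx)
    have aux : ∀ y ∈ B, G.Adj x y → ¬ (x = u ∧ y = v) → ¬ (x = v ∧ y = u) → (x = u ∨ x = v) →
        False := by
      intro y hy hadj n1 n2 e
      rcases e with e | e
      · exact n1 ⟨e, huniq y hy v (hu e) hadj (e ▸ huv)⟩
      · exact n2 ⟨e, huniq y hy u (hv e) hadj (e ▸ huv.symm)⟩
    rcases nb x n hn a1 with ⟨e1, f1⟩ | ⟨y, hy, e1, g1, g2, g3⟩ <;>
      rcases nb x n' hn' a2 with ⟨e2, f2⟩ | ⟨y', hy', e2, g1', g2', g3'⟩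
    · exact ne (e1.trans e2.symm)
    · exact aux y' hy' g1' g2' g3' f1
    · exact aux y hy g1 g2 g3 f2
    · exact ne (by rw [e1, e2, huniq y hy y' hy' g1 g1'])
  have other : ∀ z, ∃ x ∈ B, x ≠ z := by
    intro z
    by_cases e : x₀ = z
    · obtain ⟨n, hn, n', hn', a1, a2, ne⟩ := hc _ hx₀
      rcases nb x₀ n hn a1 with ⟨e1, -⟩ | ⟨y, hy, -, g1, -⟩
      · rcases nb x₀ n' hn' a2 with ⟨e2, -⟩ | ⟨y, hy, -, g1, -⟩
        · exact absurd (e1.trans e2.symm) ne
        · exact ⟨y, hy, e ▸ g1.ne'⟩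
      · exact ⟨y, hy, e ▸ g1.ne'⟩
    · exact ⟨x₀, (hB _).2 hx₀, e⟩
  by_cases hu : u ∈ B
  · obtain ⟨x, hx, hxu, huniq⟩ := h B hcard u (other u)
    exact two x hx (fun e => absurd e hxu) (fun _ => hu) huniq
  · obtain ⟨x, hx, hxv, huniq⟩ := h B hcard v (other v)
    exact two x hx (fun e => absurd (e ▸ hx) hu) (fun e => absurd e hxv) huniq

theorem glue_cls {u v : V} {M : ℕ} (huv : G.Adj u v) (hr : ∀ x, (G.neighborSet x).ncard = 4)
    (h : Deg G M) (hc : G.Preconnected) (p : ℕ → V) (k : ℕ)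
    (hp : ∀ j, G.Adj (p j) (p (j + 1)) ∧ ¬ (p j = u ∧ p (j + 1) = v) ∧ ¬ (p j = v ∧ p (j + 1) = u))
    (hk : p (2 * k + 1) = p 0) : Cls (glue G u v) M :=
  ⟨⟨none⟩, glue_reg huv hr, (glue_wdeg huv h).noCyc,
    even_of_odd (glue_conn hc) (fun j => some (true, p j)) k
      (fun j => glue_some.2 ⟨rfl, hp j⟩) (by simp only [hk])⟩

end Pool.Agent.Lib.MP_c527bb_lc
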