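import Mathlib
import Pool.Agent.Lib.MP_c527bb_lc.Glue

/-!
Cayley graphs of the groups generated by two shears modulo an odd number.
-/

set_option autoImplicit false

open Relation

namespace Pool.Agent.Lib.MP_c527bb_lc

/-- The index of the inverse generator. -/
def iv : Fin 4 → Fin 4 := ![1, 0, 3, 2]

/-- The four shears. -/
def sg {R : Type} [CommRing R] (i : Fin 4) (v : R × R) : R × R :=
  match i with
  | 0 => (v.1 + 2 * v.2, v.2)
  | 1 => (v.1 - 2 * v.2, v.2)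
  | 2 => (v.1, v.2 + 2 * v.1)
  | 3 => (v.1, v.2 - 2 * v.1)

theorem sg_iv {R : Type} [CommRing R] (i : Fin 4) (v : R × R) : sg (iv i) (sg i v) = v := by
  fin_cases i <;> simp [sg, iv]

theorem iv_iv (i : Fin 4) : iv (iv i) = i := by revert i; decide

/-- The ping-pong regions. -/
def reg (i : Fin 4) (v : ℤ × ℤ) : Prop :=
  match i with
  | 0 => (0 < v.2 ∧ v.2 < v.1) ∨ (v.1 < v.2 ∧ v.2 < 0)
  | 1 => (0 < -v.2 ∧ -v.2 < v.1) ∨ (v.1 < -v.2 ∧ -v.2 < 0)
  | 2 => (0 < v.1 ∧ v.1 < v.2) ∨ (v.2 < v.1 ∧ v.1 < 0)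
  | 3 => (0 < -v.1 ∧ -v.1 < v.2) ∨ (v.2 < -v.1 ∧ -v.1 < 0)

/-- The size of an integer vector. -/
def nm (v : ℤ × ℤ) : ℕ := v.1.natAbs + v.2.natAbs

theorem pingpong (i j : Fin 4) (hij : i ≠ iv j) (v : ℤ × ℤ) (hv : reg j v) :
    reg i (sg i v) ∧ nm v < nm (sg i v) ∧ nm (sg i v) ≤ 3 * nm v := by
  obtain ⟨x, y⟩ := v
  fin_cases i <;> fin_cases j <;> first
    | exact absurd rfl hij
    | (simp only [reg, sg, nm] at hv ⊢; omega)

theorem start (i : Fin 4) : ∃ v, reg i v ∧ nm v = 3 := by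
  fin_cases i
  · exact ⟨(2, 1), by simp [reg], rfl⟩
  · exact ⟨(2, -1), by simp [reg], rfl⟩
  · exact ⟨(1, 2), by simp [reg], rfl⟩
  · exact ⟨(-1, 2), by simp [reg], rfl⟩

theorem iv_ne (i : Fin 4) : i ≠ iv i := by revert i; decide

/-- Reduction modulo `N`. -/
def red (N : ℕ) (v : ℤ × ℤ) : ZMod N × ZMod N := ((v.1 : ZMod N), (v.2 : ZMod N))

theorem red_sg (N : ℕ) (i : Fin 4) (v : ℤ × ℤ) : red N (sg i v) = sg i (red N v) := by
  fin_cases i <;> simp [sg, red]

theorem red_inj (N : ℕ) (v w : ℤ × ℤ) (h : nm v + nm w < N) (e : red N v = red N w) : v = w := by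
  obtain ⟨x, y⟩ := v
  obtain ⟨x', y'⟩ := w
  simp only [red, Prod.mk.injEq] at e
  simp only [nm] at h
  have h1 := (ZMod.intCast_eq_intCast_iff_dvd_sub _ _ _).1 e.1
  have h2 := (ZMod.intCast_eq_intCast_iff_dvd_sub _ _ _).1 e.2
  have h3 := Int.eq_zero_of_dvd_of_natAbs_lt_natAbs h1 (by simp only [Int.natAbs_natCast]; omega)
  have h4 := Int.eq_zero_of_dvd_of_natAbs_lt_natAbs h2 (by simp only [Int.natAbs_natCast]; omega)
  ext <;> simp only <;> omega

/-- The shears as permutations. -/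
def sp (N : ℕ) (i : Fin 4) : Equiv.Perm (ZMod N × ZMod N) where
  toFun := sg i
  invFun := sg (iv i)
  left_inv := sg_iv i
  right_inv v := by
    have := sg_iv (iv i) v
    rwa [iv_iv] at this

theorem sp_iv (N : ℕ) (i : Fin 4) : sp N (iv i) * sp N i = 1 :=
  Equiv.ext fun v => sg_iv i v

theorem words (N m : ℕ) (hN : 3 ^ (m + 1) + 3 < N) (l : ℕ → Fin 4)
    (g : ℕ → Equiv.Perm (ZMod N × ZMod N)) (n : ℕ) (h1 : 1 ≤ n) (hn : n ≤ m)
    (hg : ∀ j < n, g (j + 1) = sp N (l j) * g j) (hl : ∀ j, j + 2 ≤ n → l (j + 1) ≠ iv (l j)) :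
    g n ≠ g 0 := by
  obtain ⟨v₀, hv₀, hn₀⟩ := start (l 0)
  have key : ∀ j, j + 1 ≤ n → ∃ v, reg (l j) v ∧ 3 < nm v ∧ nm v ≤ 3 ^ (j + 2) ∧
      g (j + 1) ((g 0)⁻¹ (red N v₀)) = red N v := by
    intro j
    induction j with
    | zero =>
      intro _
      obtain ⟨a, b, c⟩ := pingpong (l 0) (l 0) (iv_ne _) v₀ hv₀
      refine ⟨_, a, by omega, by omega, ?_⟩
      rw [hg 0 (by omega), red_sg]
      simp [sp]
    | succ j ih =>
      intro hj
      obtain ⟨v, a, b, c, d⟩ := ih (by omega)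
      obtain ⟨a', b', c'⟩ := pingpong (l (j + 1)) (l j) (hl j hj) v a
      refine ⟨_, a', by omega, by rw [pow_succ]; omega, ?_⟩
      rw [hg (j + 1) (by omega), Equiv.Perm.mul_apply, d, red_sg]
      rfl
  obtain ⟨j, rfl⟩ : ∃ j, n = j + 1 := ⟨n - 1, by omega⟩
  obtain ⟨v, -, b, c, d⟩ := key j le_rfl
  intro e
  rw [e] at d
  rw [← Equiv.Perm.mul_apply, mul_inv_cancel, Equiv.Perm.one_apply] at d
  have hp : 3 ^ (j + 2) ≤ 3 ^ (m + 1) := Nat.pow_le_pow_right (by norm_num) (by omega)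
  have := red_inj N v₀ v (by omega) d
  rw [← this] at b
  omega

/-- The group generated by the shears. -/
def Gam (N : ℕ) : Subgroup (Equiv.Perm (ZMod N × ZMod N)) := Subgroup.closure (Set.range (sp N))

/-- The generators. -/
def gen (N : ℕ) (i : Fin 4) : Gam N := ⟨sp N i, Subgroup.subset_closure ⟨i, rfl⟩⟩

theorem gen_iv (N : ℕ) (i : Fin 4) : gen N (iv i) * gen N i = 1 := Subtype.ext (sp_iv N i)

/-- The Cayley graph. -/
def cay (N : ℕ) : SimpleGraph (Gam N) where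
  Adj g h := g ≠ h ∧ ∃ i, h = gen N i * g
  symm := ⟨by
    rintro g h ⟨ne, i, e⟩
    exact ⟨ne.symm, iv i, by rw [e, ← mul_assoc, gen_iv, one_mul]⟩⟩
  loopless := ⟨fun g h => h.1 rfl⟩

theorem cay_nbw (N m : ℕ) (hN : 3 ^ (m + 1) + 3 < N) : NBW (cay N) m := by
  intro p n h1 hn hadj hnb
  have : ∀ j, ∃ i, j < n → p (j + 1) = gen N i * p j := by
    intro j
    by_cases hj : j < n
    · obtain ⟨-, i, e⟩ := hadj j hj
      exact ⟨i, fun _ => e⟩
    · exact ⟨0, fun h => absurd h hj⟩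
  choose l hl using this
  intro e
  refine words N m hN l (fun j => (p j).1) n h1 hn (fun j hj => congrArg Subtype.val (hl j hj))
    (fun j hj e' => hnb j hj ?_) (congrArg Subtype.val e)
  rw [hl (j + 1) (by omega), hl j (by omega), e', ← mul_assoc, gen_iv, one_mul]

theorem gen_ne_one (N : ℕ) (hN : 30 < N) (i : Fin 4) : gen N i ≠ 1 := by
  intro e
  refine words N 2 hN (fun _ => i) (fun _ => 1) 1 le_rfl (by omega) (fun j _ => ?_)
    (fun j hj => by omega) rfl
  have : sp N i = 1 := congrArg Subtype.val e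
  rw [this, one_mul]

theorem gen_mul_ne_one (N : ℕ) (hN : 30 < N) (i j : Fin 4) (h : j ≠ iv i) :
    gen N j * gen N i ≠ 1 := by
  intro e
  have e' : sp N j * sp N i = 1 := congrArg Subtype.val e
  refine words N 2 hN (fun t => if t = 0 then i else j) (fun t => if t = 1 then sp N i else 1) 2
    (by omega) le_rfl (fun t ht => ?_) (fun t ht => ?_) rfl
  · interval_cases t
    · simp
    · simp [e']
  · obtain rfl : t = 0 := by omega
    simpa using h

theorem gen_inj (N : ℕ) (hN : 30 < N) : Function.Injective (gen N) := by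
  intro i j e
  by_contra hne
  refine gen_mul_ne_one N hN i (iv j) (fun f => hne ?_) (by rw [e, gen_iv])
  rw [← iv_iv i, ← f, iv_iv]

theorem cay_adj (N : ℕ) (hN : 30 < N) (i : Fin 4) (g : Gam N) : (cay N).Adj g (gen N i * g) :=
  ⟨fun e => gen_ne_one N hN i (by simpa using e.symm), i, rfl⟩

theorem cay_reg (N : ℕ) (hN : 30 < N) (g : Gam N) : ((cay N).neighborSet g).ncard = 4 := by
  have : (cay N).neighborSet g = Set.range (fun i => gen N i * g) := by
    ext h
    constructor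
    · rintro ⟨-, i, e⟩; exact ⟨i, e.symm⟩
    · rintro ⟨i, rfl⟩; exact cay_adj N hN i g
  rw [this, Set.ncard_range_of_injective (fun i j e => gen_inj N hN (mul_right_cancel e))]
  simp

theorem cay_conn (N : ℕ) (hN : 30 < N) : (cay N).Preconnected := by
  have h : ∀ g : Gam N, (cay N).Reachable 1 g := by
    rintro ⟨g, hg⟩
    induction hg using Subgroup.closure_induction_left with
    | one => rfl
    | mul_left x hx y hy ih =>
      obtain ⟨i, rfl⟩ := hx
      exact ih.trans (cay_adj N hN i ⟨y, hy⟩).reachable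
    | inv_mul_cancel x hx y hy ih =>
      obtain ⟨i, rfl⟩ := hx
      have := (cay_adj N hN (iv i) ⟨y, hy⟩).reachable
      have e : (sp N i)⁻¹ = sp N (iv i) := (eq_inv_of_mul_eq_one_left (sp_iv N i)).symm
      simp only [e]
      exact ih.trans this
  exact fun a b => (h a).symm.trans (h b)

theorem gen_pow (N : ℕ) : gen N 0 ^ N = 1 := by
  have h : ∀ (j : ℕ) (v : ZMod N × ZMod N), (sp N 0 ^ j) v = (v.1 + 2 * j * v.2, v.2) := by
    intro j
    induction j with
    | zero => intro v; simp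
    | succ j ih =>
      intro v
      rw [pow_succ', Equiv.Perm.mul_apply, ih]
      show (_, _) = _
      ext
      · push_cast; ring
      · rfl
  apply Subtype.ext
  ext1 v
  have : ((gen N 0 ^ N : Gam N) : Equiv.Perm _) = sp N 0 ^ N := rfl
  rw [this, h]
  simp

theorem cay_two (N : ℕ) [NeZero N] (hN : 30 < N) : TwoConnected (cay N) := by
  have hc : (cay N).Connected := ⟨cay_conn N hN⟩
  obtain ⟨z₀, hz₀⟩ := hc.exists_preconnected_induce_compl_singleton_of_finite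
  intro z x y hx hy
  let f : (cay N).induce ({z₀}ᶜ : Set (Gam N)) →g (cay N).induce {u | u ≠ z} :=
    ⟨fun g => ⟨g.1 * (z₀⁻¹ * z), fun e => g.2 (by
      have : g.1 * z₀⁻¹ = 1 := by
        apply mul_right_cancel (b := z); rw [mul_assoc, e, one_mul]
      exact mul_inv_eq_one.1 this)⟩, by
      rintro g h ⟨ne, i, e⟩
      refine ⟨fun e' => ne (mul_right_cancel e'), i, ?_⟩
      have e' : h.1 = gen N i * g.1 := e
      show h.1 * _ = gen N i * (g.1 * _)
      rw [e', mul_assoc]⟩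
  have hne : ∀ x, x ≠ z → x * (z⁻¹ * z₀) ∈ ({z₀}ᶜ : Set (Gam N)) := by
    intro x hx e
    apply hx
    have e' : x * (z⁻¹ * z₀) = z₀ := e
    have : x * z⁻¹ = 1 := by
      apply mul_right_cancel (b := z₀); rw [mul_assoc, e', one_mul]
    exact mul_inv_eq_one.1 this
  have := (hz₀ ⟨_, hne x hx⟩ ⟨_, hne y hy⟩).map f
  have e : ∀ x (hx : x ≠ z), f ⟨_, hne x hx⟩ = ⟨x, hx⟩ := by
    intro x hx
    apply Subtype.ext
    show x * (z⁻¹ * z₀) * (z₀⁻¹ * z) = x
    group
  rwa [e x hx, e y hy] at this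

/-- The two families of graphs. -/
theorem exists_graphs (M : ℕ) : ∃ (V W : Type) (_ : Finite V) (_ : Finite W) (G : SimpleGraph V)
    (H : SimpleGraph W), Cls G M ∧ Cls H M ∧ TwoConnected G ∧ ¬ TwoConnected H ∧
      G.Preconnected ∧ H.Preconnected := by
  obtain ⟨k, hk⟩ : ∃ k, k = 3 ^ (M + 1) + 30 := ⟨_, rfl⟩
  have h0 : 0 < 3 ^ (M + 1) := by positivity
  have h30 : 30 < 2 * k + 1 := by omega
  have hnb := cay_nbw (2 * k + 1) M (by omega)
  have hp : ∀ j, (cay (2 * k + 1)).Adj (gen _ 0 ^ j) (gen _ 0 ^ (j + 1)) := fun j => by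
    rw [pow_succ']; exact cay_adj _ h30 0 _
  have hk' : gen (2 * k + 1) 0 ^ (2 * k + 1) = gen _ 0 ^ 0 := by rw [gen_pow, pow_zero]
  refine ⟨Gam (2 * k + 1), Option (Bool × Gam (2 * k + 1)), inferInstance, inferInstance,
    cay _, glue (cay _) 1 (gen _ 2), ⟨⟨1⟩, cay_reg _ h30, hnb.deg.wdeg.noCyc,
      even_of_odd (cay_conn _ h30) _ k hp hk'⟩,
    glue_cls (by simpa using cay_adj _ h30 2 1) (cay_reg _ h30) hnb.deg (cay_conn _ h30)
      (fun j => gen _ 0 ^ j) k (fun j => ⟨hp j, ?_, ?_⟩) hk',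
    cay_two _ h30, glue_not_two, cay_conn _ h30, glue_conn (cay_conn _ h30)⟩
  · rintro ⟨e1, e2⟩
    rw [pow_succ', e1, mul_one] at e2
    exact absurd (gen_inj _ h30 e2) (by decide)
  · rintro ⟨e1, e2⟩
    rw [pow_succ', e1] at e2
    exact gen_mul_ne_one _ h30 2 0 (by decide) e2

end Pool.Agent.Lib.MP_c527bb_lc
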